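import Pool.Agent.L5helper42.Seth.Space
import Pool.Agent.L5helper42.Owf.Net

/-!
# CNF formulas, flips of variables, and systems of equations
-/

set_option autoImplicit false
set_option linter.unusedSectionVars false
set_option linter.unusedVariables false

open Equiv Finset

namespace Pool.Agent.L5helper42.Seth

open Pool.Agent.L5helper42.Owf (Net)

/-- A clause with at most `k` literals over `n` variables. The truth values are the elements `0` and
`1` of the field with two elements; the literal `(i, v)` is satisfied if the variable `i` has the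
value `v`. -/
abbrev Clause (n k : ℕ) : Type := {c : Finset (Fin n × ZMod 2) // c.card ≤ k}

variable {n m q k s : ℕ}

/-- Replace the variable `x_i` by its negation, for all `i` with `u i = 1`, in a clause. -/
def flipClause (u : Fin n → ZMod 2) (c : Clause n k) : Clause n k :=
  ⟨c.1.image fun l => (l.1, l.2 + u l.1), card_image_le.trans c.2⟩

lemma mem_flipClause (u : Fin n → ZMod 2) (c : Clause n k) (l : Fin n × ZMod 2) :
    l ∈ (flipClause u c).1 ↔ (l.1, l.2 + u l.1) ∈ c.1 := by
  simp only [flipClause, mem_image]
  have key : ∀ z w : ZMod 2, z + w + w = z := by decide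
  constructor
  · rintro ⟨l', h, rfl⟩
    simp only [key]
    exact h
  · intro h
    exact ⟨_, h, Prod.ext rfl (key _ _)⟩

lemma flipClause_add (u v : Fin n → ZMod 2) (c : Clause n k) :
    flipClause (u + v) c = flipClause u (flipClause v c) := by
  apply Subtype.ext
  ext l
  rw [mem_flipClause, mem_flipClause, mem_flipClause, Pi.add_apply, ← add_assoc]

lemma flipClause_zero (c : Clause n k) : flipClause (0 : Fin n → ZMod 2) c = c := by
  apply Subtype.ext
  ext l
  rw [mem_flipClause, Pi.zero_apply, add_zero]

lemma add_self_zero (u : Fin n → ZMod 2) : u + u = 0 := by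
  funext i
  have : ∀ z : ZMod 2, z + z = 0 := by decide
  exact this _

/-- The flip, as a permutation of the set of clauses. -/
def flip (k : ℕ) (u : Fin n → ZMod 2) : Perm (Clause n k) where
  toFun := flipClause u
  invFun := flipClause u
  left_inv c := by rw [← flipClause_add, add_self_zero, flipClause_zero]
  right_inv c := by rw [← flipClause_add, add_self_zero, flipClause_zero]

/-- The circuit is invariant under replacing variables in `D` by their negations. -/
def FlipInvariant (C : Net (Clause n k) Unit s) (D : Finset (Fin n)) : Prop :=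
  ∀ u : Fin n → ZMod 2, (∀ i ∉ D, u i = 0) → ∃ τ : Perm (Fin s), C.IsAut (flip k u) 1 τ

section ext

variable (e : Fin q ↪ Fin n)

/-- Extension by zero. -/
noncomputable def ex (u : Fin q → ZMod 2) : Fin n → ZMod 2 := Function.extend e u 0

lemma ex_apply (u : Fin q → ZMod 2) (i : Fin q) : ex e u (e i) = u i :=
  e.injective.extend_apply _ _ _

lemma ex_off (u : Fin q → ZMod 2) (i : Fin n) (h : ∀ j, e j ≠ i) : ex e u i = 0 := by
  unfold ex
  rw [Function.extend_apply' _ _ _ (by rintro ⟨j, hj⟩; exact h j hj)]
  rfl

lemma ex_add (u v : Fin q → ZMod 2) : ex e (u + v) = ex e u + ex e v := by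
  funext i
  by_cases h : ∃ j, e j = i
  · obtain ⟨j, rfl⟩ := h
    rw [Pi.add_apply, ex_apply, ex_apply, ex_apply, Pi.add_apply]
  · push Not at h
    rw [Pi.add_apply, ex_off e _ i h, ex_off e _ i h, ex_off e _ i h, add_zero]

lemma ex_zero : ex e (0 : Fin q → ZMod 2) = 0 := by
  funext i
  by_cases h : ∃ j, e j = i
  · obtain ⟨j, rfl⟩ := h
    rw [ex_apply]; rfl
  · push Not at h
    rw [ex_off e _ i h]; rfl

/-- The action of the flips. -/
noncomputable def th (k : ℕ) :
    Multiplicative (Fin q → ZMod 2) →* Perm (Clause n k) × Perm Unit where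
  toFun u := (flip k (ex e u.toAdd), 1)
  map_one' := by
    rw [toAdd_one, ex_zero]
    refine Prod.ext ?_ rfl
    ext1 c
    exact flipClause_zero c
  map_mul' u v := by
    rw [toAdd_mul, ex_add]
    refine Prod.ext ?_ rfl
    ext1 c
    exact flipClause_add _ _ c

lemma th_fst (u : Fin q → ZMod 2) : (th e k (Multiplicative.ofAdd u)).1 = flip k (ex e u) := rfl

/-- The clause which excludes that the variables in `t` have the same values as in `x`. -/
def cl (t : Fin k → Fin q) (x : Fin q → ZMod 2) : Clause n k :=
  ⟨univ.image fun j => (e (t j), x (t j) + 1), card_image_le.trans (by simp)⟩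

lemma flip_cl (t : Fin k → Fin q) (x u : Fin q → ZMod 2) :
    flip k (ex e u) (cl e t x) = cl e t (x + u) := by
  apply Subtype.ext
  ext l
  change l ∈ (flipClause (ex e u) (cl e t x)).1 ↔ _
  simp only [flipClause, cl, mem_image, mem_univ, true_and]
  constructor
  · rintro ⟨l', ⟨j, rfl⟩, rfl⟩
    refine ⟨j, Prod.ext rfl ?_⟩
    simp only [ex_apply, Pi.add_apply]
    ring
  · rintro ⟨j, rfl⟩
    refine ⟨_, ⟨j, rfl⟩, Prod.ext rfl ?_⟩
    simp only [ex_apply, Pi.add_apply]
    ring

open Classical in
/-- The CNF formula for the system of equations with the left hand sides `T` and the right hand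
sides `b`. -/
noncomputable def inst (T : Fin m → Fin k → Fin q) (b : Fin m → ZMod 2) (c : Clause n k) : Bool :=
  decide (∃ l x, mulT T x l ≠ b l ∧ c = cl e (T l) x)

lemma inst_iff (T : Fin m → Fin k → Fin q) (b : Fin m → ZMod 2) (c : Clause n k) :
    inst e T b c = true ↔ ∃ l x, mulT T x l ≠ b l ∧ c = cl e (T l) x := by
  simp [inst]

lemma inst_flip (T : Fin m → Fin k → Fin q) (b : Fin m → ZMod 2) (u : Fin q → ZMod 2)
    (c : Clause n k) :
    inst e T b (flip k (ex e u) c) = inst e T (b + mulT T u) c := by
  refine Bool.eq_iff_iff.2 ?_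
  rw [inst_iff, inst_iff]
  have key : ∀ z w v : ZMod 2, z + v ≠ w ↔ z ≠ w + v := by decide
  have hself : ∀ x : Fin q → ZMod 2, x + u + u = x := by
    intro x; rw [add_assoc, add_self_zero, add_zero]
  constructor
  · rintro ⟨l, x, h1, h2⟩
    refine ⟨l, x + u, ?_, ?_⟩
    · rw [mulT_add', Pi.add_apply, Pi.add_apply, ← key]
      have : mulT T x l + mulT T u l + mulT T u l = mulT T x l := by
        have : ∀ z w : ZMod 2, z + w + w = z := by decide
        exact this _ _
      rwa [this]
    · apply (flip k (ex e u)).injective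
      rw [h2, flip_cl, hself]
  · rintro ⟨l, x, h1, h2⟩
    refine ⟨l, x + u, ?_, ?_⟩
    · rw [mulT_add', Pi.add_apply, key]
      exact h1
    · rw [h2, flip_cl]

end ext

end Pool.Agent.L5helper42.Seth
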