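import Pool.Agent.L5helper42.Seth.Random

/-!
# Right hand sides far from the column space, and counting clauses
-/

set_option autoImplicit false
set_option linter.unusedSectionVars false
set_option linter.unusedVariables false

open Equiv Finset

namespace Pool.Agent.L5helper42.Seth

theorem exists_far_in {m q : ℕ} {δ K : ℝ} (B : Finset (Fin m → ZMod 2))
    (hB : (2 : ℝ) ^ m ≤ K * B.card) (hK : K * 2 ^ q < Real.exp (2 * δ ^ 2 * m)) (hδ : 0 < δ)
    (c : (Fin q → ZMod 2) → (Fin m → ZMod 2)) :
    ∃ b ∈ B, ∀ t, (1 / 2 - δ) * m ≤ ((univ.filter fun e => c t e ≠ b e).card : ℝ) := by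
  by_contra hcon
  push Not at hcon
  have h1 : (B.card : ℝ) * Real.exp (-(4 * δ) * ((1 / 2 - δ) * m)) ≤
      (2 : ℝ) ^ q * (1 + Real.exp (-(4 * δ))) ^ m := by
    calc (B.card : ℝ) * Real.exp (-(4 * δ) * ((1 / 2 - δ) * m))
        = ∑ b ∈ B, Real.exp (-(4 * δ) * ((1 / 2 - δ) * m)) := by
          rw [sum_const, nsmul_eq_mul]
      _ ≤ ∑ b ∈ B, ∑ t : Fin q → ZMod 2,
          Real.exp (-(4 * δ) * ((univ.filter fun e => c t e ≠ b e).card : ℝ)) := by
          refine sum_le_sum fun b hb => ?_
          obtain ⟨t, ht⟩ := hcon b hb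
          refine le_trans ?_ (single_le_sum (f := fun t : Fin q → ZMod 2 =>
            Real.exp (-(4 * δ) * ((univ.filter fun e => c t e ≠ b e).card : ℝ)))
            (fun _ _ => (Real.exp_pos _).le) (mem_univ t))
          apply Real.exp_le_exp.2
          nlinarith
      _ ≤ ∑ b : Fin m → ZMod 2, ∑ t : Fin q → ZMod 2,
          Real.exp (-(4 * δ) * ((univ.filter fun e => c t e ≠ b e).card : ℝ)) := by
          refine sum_le_sum_of_subset_of_nonneg (subset_univ _) fun b _ _ => ?_
          positivity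
      _ = ∑ t : Fin q → ZMod 2, (1 + Real.exp (-(4 * δ))) ^ m := by
          rw [sum_comm]
          exact sum_congr rfl fun t _ => Sym.sum_exp (c t) (4 * δ)
      _ = (2 : ℝ) ^ q * (1 + Real.exp (-(4 * δ))) ^ m := by
          rw [sum_const, card_univ, Fintype.card_fun, ZMod.card, Fintype.card_fin, nsmul_eq_mul]
          push_cast; ring
  have h2 : 1 + Real.exp (-(4 * δ)) ≤ 2 * Real.exp (-(2 * δ) + 2 * δ ^ 2) := by
    have h3 := Real.cosh_le_exp_half_sq (2 * δ)
    have h4 : 1 + Real.exp (-(4 * δ)) = 2 * Real.exp (-(2 * δ)) * Real.cosh (2 * δ) := by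
      rw [Real.cosh_eq]
      have e1 : Real.exp (-(4 * δ)) = Real.exp (-(2 * δ)) * Real.exp (-(2 * δ)) := by
        rw [← Real.exp_add]; ring_nf
      have e2 : Real.exp (-(2 * δ)) * Real.exp (2 * δ) = 1 := by
        rw [← Real.exp_add]; simp
      rw [e1]
      linear_combination (-1 : ℝ) * e2
    rw [h4, Real.exp_add, ← mul_assoc]
    refine mul_le_mul_of_nonneg_left (h3.trans_eq ?_) (by positivity)
    congr 1; ring
  have h3 : (B.card : ℝ) * Real.exp (-(4 * δ) * ((1 / 2 - δ) * m)) ≤
      (2 : ℝ) ^ q * ((2 : ℝ) ^ m * Real.exp ((-(2 * δ) + 2 * δ ^ 2) * m)) := by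
    refine h1.trans (mul_le_mul_of_nonneg_left ?_ (by positivity))
    refine (pow_le_pow_left₀ (by positivity) h2 m).trans_eq ?_
    rw [mul_pow, ← Real.exp_nat_mul, mul_comm ((m : ℕ) : ℝ)]
  have e1 : -(4 * δ) * ((1 / 2 - δ) * m) = (-(2 * δ) + 2 * δ ^ 2) * m + 2 * δ ^ 2 * m := by ring
  rw [e1, Real.exp_add] at h3
  have h5 : (0 : ℝ) < Real.exp ((-(2 * δ) + 2 * δ ^ 2) * m) := Real.exp_pos _
  have h6 : (B.card : ℝ) * Real.exp (2 * δ ^ 2 * m) ≤ 2 ^ q * 2 ^ m := by
    refine le_of_mul_le_mul_right ?_ h5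
    calc (B.card : ℝ) * Real.exp (2 * δ ^ 2 * m) * Real.exp ((-(2 * δ) + 2 * δ ^ 2) * m)
        = (B.card : ℝ) * (Real.exp ((-(2 * δ) + 2 * δ ^ 2) * m) * Real.exp (2 * δ ^ 2 * m)) := by
          ring
      _ ≤ _ := h3
      _ = _ := by ring
  have hBpos : (0 : ℝ) < B.card := by
    rcases (Nat.cast_nonneg (α := ℝ) B.card).lt_or_eq with h | h
    · exact h
    · rw [← h, mul_zero] at hB
      have : (0 : ℝ) < 2 ^ m := by positivity
      linarith
  have h7 : (B.card : ℝ) * Real.exp (2 * δ ^ 2 * m) ≤ B.card * (K * 2 ^ q) := by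
    calc (B.card : ℝ) * Real.exp (2 * δ ^ 2 * m) ≤ 2 ^ q * 2 ^ m := h6
      _ ≤ 2 ^ q * (K * B.card) := mul_le_mul_of_nonneg_left hB (by positivity)
      _ = _ := by ring
  have h8 := le_of_mul_le_mul_left h7 hBpos
  linarith

variable {n m q k : ℕ}

/-- The number of clauses of a formula. -/
def numClauses (F : Clause n k → Bool) : ℕ := (univ.filter fun c => F c = true).card

/-- The number of clauses of a formula which are satisfied by the assignment `x`. -/
def numSat (F : Clause n k → Bool) (x : Fin n → ZMod 2) : ℕ :=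
  (univ.filter fun c => F c = true ∧ ∃ l ∈ c.1, x l.1 = l.2).card

/-- The formula is satisfiable. -/
def Satisfiable (F : Clause n k → Bool) : Prop :=
  ∃ x : Fin n → ZMod 2, ∀ c, F c = true → ∃ l ∈ c.1, x l.1 = l.2

lemma card_ne (hk : 1 ≤ k) (β : ZMod 2) :
    2 * (univ.filter fun v : Fin k → ZMod 2 => ∑ j, v j ≠ β).card = 2 ^ k := by
  obtain ⟨k, rfl⟩ := Nat.exists_eq_add_of_le hk
  have h1 : (univ.filter fun v : Fin (1 + k) → ZMod 2 => ∑ j, v j ≠ β).card =
      (univ.filter fun v : Fin (1 + k) → ZMod 2 => ∑ j, v j = β).card := by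
    have j₀ : Fin (1 + k) := ⟨0, by omega⟩
    refine Finset.card_bij (fun v _ => v + Pi.single j₀ 1) ?_ ?_ ?_
    · intro v hv
      rw [mem_filter] at hv ⊢
      refine ⟨mem_univ _, ?_⟩
      simp only [Pi.add_apply]
      rw [sum_add_distrib, Finset.sum_pi_single']
      simp only [mem_univ, if_true]
      have : ∀ z w : ZMod 2, z ≠ w → z + 1 = w := by decide
      exact this _ _ hv.2
    · intro v _ v' _ h
      exact add_right_cancel h
    · intro v hv
      rw [mem_filter] at hv
      refine ⟨v - Pi.single j₀ 1, ?_, sub_add_cancel _ _⟩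
      rw [mem_filter]
      refine ⟨mem_univ _, ?_⟩
      simp only [Pi.sub_apply]
      rw [sum_sub_distrib, Finset.sum_pi_single', hv.2]
      simp only [mem_univ, if_true]
      have : ∀ z : ZMod 2, z - 1 ≠ z := by decide
      exact this _
  have h2 := card_filter_add_card_filter_not (s := (univ : Finset (Fin (1 + k) → ZMod 2)))
    (fun v => ∑ j, v j = β)
  rw [card_univ, Fintype.card_fun, ZMod.card, Fintype.card_fin] at h2
  change (univ.filter fun v : Fin (1 + k) → ZMod 2 => ∑ j, v j = β).card +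
    (univ.filter fun v : Fin (1 + k) → ZMod 2 => ∑ j, v j ≠ β).card = _ at h2
  omega

variable (e : Fin q ↪ Fin n) (T : Fin m → Fin k → Fin q)

lemma numClauses_le (hk : 1 ≤ k) (b : Fin m → ZMod 2) :
    2 * numClauses (inst e T b) ≤ m * 2 ^ k := by
  classical
  set cv : (Fin k → Fin q) → (Fin k → ZMod 2) → Clause n k := fun t v =>
    ⟨univ.image fun j => (e (t j), v j + 1), card_image_le.trans (by simp)⟩ with hcv
  have hsub : (univ.filter fun c => inst e T b c = true) ⊆
      (univ : Finset (Fin m)).biUnion fun l =>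
        (univ.filter fun v : Fin k → ZMod 2 => ∑ j, v j ≠ b l).image fun v => cv (T l) v := by
    intro c hc
    rw [mem_filter, inst_iff] at hc
    obtain ⟨-, l, x, h1, h2⟩ := hc
    refine mem_biUnion.2 ⟨l, mem_univ _, mem_image.2 ⟨fun j => x (T l j), ?_, ?_⟩⟩
    · rw [mem_filter]
      exact ⟨mem_univ _, h1⟩
    · rw [h2]; rfl
  unfold numClauses
  have h1 := (card_le_card hsub).trans card_biUnion_le
  have h2 : ∑ l : Fin m, ((univ.filter fun v : Fin k → ZMod 2 => ∑ j, v j ≠ b l).image
      fun v => cv (T l) v).card ≤ ∑ l : Fin m,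
        (univ.filter fun v : Fin k → ZMod 2 => ∑ j, v j ≠ b l).card :=
    sum_le_sum fun l _ => card_image_le
  have h3 : 2 * ∑ l : Fin m, (univ.filter fun v : Fin k → ZMod 2 => ∑ j, v j ≠ b l).card =
      m * 2 ^ k := by
    rw [mul_sum, sum_congr rfl fun l _ => card_ne hk (b l), sum_const, card_univ,
      Fintype.card_fin, smul_eq_mul]
  calc _ ≤ 2 * ∑ l : Fin m, (univ.filter fun v : Fin k → ZMod 2 => ∑ j, v j ≠ b l).card :=
        Nat.mul_le_mul_left _ (h1.trans h2)
    _ = _ := h3

lemma inst_zero_sat : Satisfiable (inst e T 0) := by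
  refine ⟨0, ?_⟩
  intro c hc
  rw [inst_iff] at hc
  obtain ⟨l, x, h1, rfl⟩ := hc
  have : ∃ j, x (T l j) ≠ 0 := by
    by_contra h
    push Not at h
    refine h1 ?_
    unfold mulT
    rw [sum_congr rfl fun j _ => h j]
    simp
  obtain ⟨j, hj⟩ := this
  refine ⟨_, mem_image.2 ⟨j, mem_univ _, rfl⟩, ?_⟩
  have h2 : ∀ z : ZMod 2, z ≠ 0 → 0 = z + 1 := by decide
  exact h2 _ hj

/-- Different equations have different sets of variables. -/
def Distinct (T : Fin m → Fin k → Fin q) : Prop :=
  ∀ l l', univ.image (T l) = univ.image (T l') → l = l'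

/-- The number of violated clauses. -/
lemma violated (hT : Distinct T) (b : Fin m → ZMod 2) (y : Fin n → ZMod 2) :
    numSat (inst e T b) y + (univ.filter fun l => mulT T (fun i => y (e i)) l ≠ b l).card ≤
      numClauses (inst e T b) := by
  classical
  set x : Fin q → ZMod 2 := fun i => y (e i) with hx
  set Vio : Finset (Clause n k) := univ.filter fun c => inst e T b c = true ∧
    ¬ ∃ l ∈ c.1, y l.1 = l.2 with hVio
  have hcount : numClauses (inst e T b) = numSat (inst e T b) y + Vio.card := by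
    unfold numClauses numSat
    rw [hVio, ← card_union_of_disjoint]
    · congr 1
      ext c
      simp only [mem_filter, mem_univ, true_and, mem_union]
      constructor
      · intro h
        by_cases hex : ∃ l ∈ c.1, y l.1 = l.2
        · exact Or.inl ⟨h, hex⟩
        · exact Or.inr ⟨h, hex⟩
      · rintro (h | h)
        · exact h.1
        · exact h.1
    · rw [Finset.disjoint_filter]
      rintro c - ⟨_, h1⟩ ⟨_, h2⟩
      exact h2 h1
  rw [hcount]
  refine Nat.add_le_add_left ?_ _
  refine card_le_card_of_injOn (fun l => cl e (T l) x) ?_ ?_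
  · intro l hl
    simp only [coe_filter, mem_univ, true_and, Set.mem_ofPred_eq] at hl
    simp only [hVio, coe_filter, mem_univ, true_and, Set.mem_ofPred_eq]
    refine ⟨(inst_iff e T b _).2 ⟨l, x, hl, rfl⟩, ?_⟩
    rintro ⟨l', hl', hy⟩
    obtain ⟨j, _, rfl⟩ := mem_image.1 hl'
    simp only at hy
    have : ∀ z : ZMod 2, z ≠ z + 1 := by decide
    exact this _ hy
  · intro l _ l' _ h
    apply hT
    have key : ∀ l l', cl e (T l) x = cl (n := n) e (T l') x →
        univ.image (T l) ⊆ univ.image (T l') := by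
      intro l l' h i hi
      obtain ⟨j, _, rfl⟩ := mem_image.1 hi
      have h1 : (e (T l j), x (T l j) + 1) ∈ (cl e (T l) x : Clause n k).1 :=
        mem_image.2 ⟨j, mem_univ _, rfl⟩
      rw [h] at h1
      obtain ⟨j', _, hj'⟩ := mem_image.1 h1
      rw [Prod.mk.injEq] at hj'
      rw [mem_image]
      exact ⟨j', mem_univ _, e.injective hj'.1⟩
    exact Subset.antisymm (key _ _ h) (key _ _ h.symm)

open Classical in
/-- Most systems are distinct. -/
lemma card_not_distinct (m k q : ℕ) :
    (univ.filter fun T : Fin m → Fin k → Fin q => ¬ Distinct T).card ≤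
      m ^ 2 * k ^ k * (q ^ k) ^ (m - 1) := by
  have hsub : (univ.filter fun T : Fin m → Fin k → Fin q => ¬ Distinct T) ⊆
      (univ : Finset ((Fin m × Fin m) × (Fin k → Fin k))).biUnion fun p =>
        univ.filter fun T : Fin m → Fin k → Fin q => p.1.1 ≠ p.1.2 ∧
          T p.1.2 = fun j => T p.1.1 (p.2 j) := by
    intro T hT
    rw [mem_filter] at hT
    obtain ⟨-, hT⟩ := hT
    unfold Distinct at hT
    push Not at hT
    obtain ⟨l, l', h1, h2⟩ := hT
    have h3 : ∀ j, ∃ j', T l j' = T l' j := by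
      intro j
      have : T l' j ∈ univ.image (T l) := by
        rw [h1]; exact mem_image_of_mem _ (mem_univ j)
      obtain ⟨j', _, hj'⟩ := mem_image.1 this
      exact ⟨j', hj'⟩
    choose π hπ using h3
    refine mem_biUnion.2 ⟨((l, l'), π), mem_univ _, ?_⟩
    rw [mem_filter]
    exact ⟨mem_univ _, h2, funext fun j => (hπ j).symm⟩
  refine (card_le_card hsub).trans ((card_biUnion_le_card_mul _ _ ((q ^ k) ^ (m - 1)) ?_).trans ?_)
  · rintro ⟨⟨l, l'⟩, π⟩ _
    by_cases hll : l = l'
    · have : (univ.filter fun T : Fin m → Fin k → Fin q => l ≠ l' ∧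
          T l' = fun j => T l (π j)) = ∅ := by
        rw [filter_eq_empty_iff]
        intro T _ h
        exact h.1 hll
      simp only
      rw [this, card_empty]
      exact Nat.zero_le _
    · have h1 : Fintype.card ({x : Fin m // x ≠ l'} → (Fin k → Fin q)) = (q ^ k) ^ (m - 1) := by
        rw [Fintype.card_fun, Fintype.card_fun, Fintype.card_fin, Fintype.card_fin]
        congr 1
        rw [Fintype.card_subtype_compl, Fintype.card_fin, Fintype.card_unique]
      rw [← h1, ← card_univ]
      refine card_le_card_of_injOn (fun T x => T x.1) (fun _ _ => mem_univ _) ?_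
      intro T hT T' hT' h
      simp only [coe_filter, mem_univ, true_and, Set.mem_ofPred_eq] at hT hT'
      have h2 : ∀ x, x ≠ l' → T x = T' x := fun x hx => congrFun h ⟨x, hx⟩
      funext x
      by_cases hx : x = l'
      · subst hx
        rw [hT.2, hT'.2, h2 l hll]
      · exact h2 x hx
  · refine le_of_eq ?_
    rw [card_univ, Fintype.card_prod, Fintype.card_prod, Fintype.card_fun, Fintype.card_fin,
      Fintype.card_fin]
    ring

end Pool.Agent.L5helper42.Seth
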