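import Pool.Agent.L5helper42.Seth.Clauses

/-!
# Circuits which are invariant under flips do not see the right hand sides
-/

set_option autoImplicit false
set_option linter.unusedSectionVars false
set_option linter.unusedVariables false

open Equiv Finset

namespace Pool.Agent.L5helper42.Seth

open Pool.Agent.L5helper42.Owf (Net)

variable {n m q k s : ℕ} (e : Fin q ↪ Fin n) (C : Net (Clause n k) Unit s)

/-- The flips which fix a gate, and the flips of variables which do not occur in a clause. -/
noncomputable def Wn : Clause n k ⊕ Fin s → Submodule (ZMod 2) (Fin q → ZMod 2)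
  | Sum.inl c =>
    { carrier := {w | ∀ i, (∃ v, (e i, v) ∈ c.1) → w i = 0}
      zero_mem' := fun _ _ => rfl
      add_mem' := by
        intro w w' h h' i hi
        rw [Pi.add_apply, h i hi, h' i hi, add_zero]
      smul_mem' := by
        intro a w h i hi
        rw [Pi.smul_apply, h i hi, smul_zero] }
  | Sum.inr g =>
    { carrier := {w | Multiplicative.ofAdd w ∈ C.stab (th e k) g}
      zero_mem' := (C.stab (th e k) g).one_mem
      add_mem' := by
        intro w w' h h'
        exact (C.stab (th e k) g).mul_mem h h'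
      smul_mem' := by
        intro a w h
        rcases zmod2 a with ha | ha
        · rw [ha, zero_smul]
          exact (C.stab (th e k) g).one_mem
        · rw [ha, one_smul]
          exact h }

lemma mem_Wn_inl (c : Clause n k) (w : Fin q → ZMod 2) :
    w ∈ Wn e C (Sum.inl c) ↔ ∀ i, (∃ v, (e i, v) ∈ c.1) → w i = 0 := Iff.rfl

lemma mem_Wn_inr (g : Fin s) (w : Fin q → ZMod 2) :
    w ∈ Wn e C (Sum.inr g) ↔ Multiplicative.ofAdd w ∈ C.stab (th e k) g := Iff.rfl

variable {e C}

lemma stab_aut {x : Multiplicative (Fin q → ZMod 2)} {σ : Perm (Fin s)}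
    (h : (th e k x, σ) ∈ C.autGrp) (g : Fin s) : C.stab (th e k) (σ g) = C.stab (th e k) g := by
  ext y
  constructor
  · rintro ⟨τ, h1, h2⟩
    refine ⟨σ⁻¹ * τ * σ, ?_, ?_⟩
    · have h3 := C.autGrp.mul_mem (C.autGrp.mul_mem (C.autGrp.inv_mem h) h1) h
      have h4 : th e k y = (th e k x)⁻¹ * th e k y * th e k x := by
        rw [← map_inv, ← map_mul, ← map_mul]
        congr 1
        rw [mul_comm x⁻¹ y, inv_mul_cancel_right]
      rw [h4]
      exact h3
    · rw [Perm.mul_apply, Perm.mul_apply, h2]
      exact σ.symm_apply_apply g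
  · rintro ⟨τ, h1, h2⟩
    refine ⟨σ * τ * σ⁻¹, ?_, ?_⟩
    · have h3 := C.autGrp.mul_mem (C.autGrp.mul_mem h h1) (C.autGrp.inv_mem h)
      have h4 : th e k y = th e k x * th e k y * (th e k x)⁻¹ := by
        rw [← map_inv, ← map_mul, ← map_mul]
        congr 1
        rw [mul_comm x y, mul_inv_cancel_right]
      rw [h4]
      exact h3
    · rw [Perm.mul_apply, Perm.mul_apply]
      have h3 : σ⁻¹ (σ g) = g := σ.symm_apply_apply g
      rw [h3, h2]

lemma Wn_aut {u : Fin q → ZMod 2} {σ : Perm (Fin s)}
    (h : (th e k (Multiplicative.ofAdd u), σ) ∈ C.autGrp) (v : Clause n k ⊕ Fin s) :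
    Wn e C (Sum.map (th e k (Multiplicative.ofAdd u)).1 σ v) = Wn e C v := by
  cases v with
  | inl c =>
    ext w
    change w ∈ Wn e C (Sum.inl (flipClause (ex e u) c)) ↔ _
    rw [mem_Wn_inl, mem_Wn_inl]
    refine forall_congr' fun i => ?_
    have : (∃ v, (e i, v) ∈ (flipClause (ex e u) c).1) ↔ ∃ v, (e i, v) ∈ c.1 := by
      simp only [mem_flipClause]
      constructor
      · rintro ⟨v, hv⟩; exact ⟨_, hv⟩
      · rintro ⟨v, hv⟩
        refine ⟨v + ex e u (e i), ?_⟩
        have key : ∀ z w : ZMod 2, z + w + w = z := by decide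
        rw [key]; exact hv
    rw [this]
  | inr g =>
    ext w
    change w ∈ Wn e C (Sum.inr (σ g)) ↔ _
    rw [mem_Wn_inr, mem_Wn_inr, stab_aut h]

/-- The invariant of the induction. -/
def GOK (e : Fin q ↪ Fin n) (C : Net (Clause n k) Unit s) (T : Fin m → Fin k → Fin q) (R : ℕ)
    (v : Clause n k ⊕ Fin s) : Prop :=
  ∀ b b' : Fin m → ZMod 2, (∀ c, Ann T (2 * R) (Wn e C v) c → pr c b = pr c b') →
    C.nval (inst e T b) v = C.nval (inst e T b') v

variable {T : Fin m → Fin k → Fin q} {R : ℕ}

lemma gok_inl (hR : 1 ≤ R) (c : Clause n k) : GOK e C T R (Sum.inl c) := by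
  intro b b' hb
  simp only [Net.nval, Sum.elim_inl]
  have key : ∀ l x, c = cl e (T l) x → b l = b' l := by
    intro l x hc
    have h1 : Ann T (2 * R) (Wn e C (Sum.inl c)) (Pi.single l 1) := by
      refine ⟨?_, fun w hw => ?_⟩
      · have : wt (Pi.single l 1 : Fin m → ZMod 2) ≤ 1 := by
          unfold wt
          refine (card_le_card (t := {l}) ?_).trans (card_singleton l).le
          intro l' hl'
          rw [mem_filter] at hl'
          rw [mem_singleton]
          by_contra hne
          exact hl'.2 (Pi.single_eq_of_ne hne _)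
        omega
      · rw [mem_Wn_inl] at hw
        have h2 : mulT T w l = 0 := by
          unfold mulT
          refine sum_eq_zero fun j _ => hw _ ⟨x (T l j) + 1, ?_⟩
          rw [hc]
          exact mem_image.2 ⟨j, mem_univ _, rfl⟩
        unfold pr
        refine sum_eq_zero fun l' _ => ?_
        by_cases hl : l' = l
        · subst hl; rw [h2, mul_zero]
        · rw [Pi.single_eq_of_ne hl, zero_mul]
    have h2 := hb _ h1
    have h3 : ∀ z : Fin m → ZMod 2, pr (Pi.single l 1) z = z l := by
      intro z
      unfold pr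
      rw [sum_eq_single l]
      · rw [Pi.single_eq_same, one_mul]
      · intro l' _ hl
        rw [Pi.single_eq_of_ne hl, zero_mul]
      · intro h; exact absurd (mem_univ _) h
    rwa [h3, h3] at h2
  refine Bool.eq_iff_iff.2 ?_
  rw [inst_iff, inst_iff]
  constructor
  · rintro ⟨l, x, h1, h2⟩
    exact ⟨l, x, by rwa [← key l x h2], h2⟩
  · rintro ⟨l, x, h1, h2⟩
    exact ⟨l, x, by rwa [key l x h2], h2⟩

/-- The value of a node after a flip. -/
lemma nval_flip {u : Fin q → ZMod 2} {σ : Perm (Fin s)}
    (h : (th e k (Multiplicative.ofAdd u), σ) ∈ C.autGrp) (b : Fin m → ZMod 2)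
    (v : Clause n k ⊕ Fin s) :
    C.nval (inst e T b) (Sum.map (th e k (Multiplicative.ofAdd u)).1 σ v) =
      C.nval (inst e T (b + mulT T u)) v := by
  have h4 := C.nval_aut h (inst e T (b + mulT T u)) v
  have h5 : (fun i => inst e T (b + mulT T u)
      ((th e k (Multiplicative.ofAdd u)).1.symm i)) = inst e T b := by
    funext c
    rw [← inst_flip e T b u, th_fst, Equiv.apply_symm_apply]
  rw [h5] at h4
  exact h4

theorem gok_gate (hR : 1 ≤ R) (hG : ∀ v, GapFor T R (Wn e C v)) (g : Fin s) :
    GOK e C T R (Sum.inr g) := by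
  classical
  induction g using WellFoundedLT.induction with
  | ind g ih =>
    have hnode : ∀ u, C.wires g u ≠ 0 → GOK e C T R u := by
      intro u hu
      cases u with
      | inl c => exact gok_inl hR c
      | inr h => exact ih h (C.acyclic g h hu)
    intro b b' hb
    change C.val _ g = C.val _ g
    rw [C.val_eq, C.val_eq]
    congr 1
    unfold Net.count
    rw [← Finset.sum_fiberwise_of_maps_to (s := univ) (t := univ.image (Wn e C)) (g := Wn e C)
      (fun v _ => mem_image_of_mem _ (mem_univ v)),
      ← Finset.sum_fiberwise_of_maps_to (s := univ) (t := univ.image (Wn e C)) (g := Wn e C)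
      (fun v _ => mem_image_of_mem _ (mem_univ v))]
    refine sum_congr rfl fun V hV => ?_
    obtain ⟨v0, -, hv0⟩ := mem_image.1 hV
    obtain ⟨t, ht1, ht2⟩ := solve (T := T) (R := R) (W := V) (W' := Wn e C (Sum.inr g))
      (hv0 ▸ hG v0) (b + b') (by
        intro c hc
        rw [pr_add_right, hb c hc]
        have : ∀ z : ZMod 2, z + z = 0 := by decide
        exact this _)
    rw [mem_Wn_inr] at ht1
    obtain ⟨σ, hσ, hσg⟩ := ht1
    refine Finset.sum_equiv (Equiv.sumCongr (th e k (Multiplicative.ofAdd t)).1 σ) ?_ ?_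
    · intro v
      simp only [mem_filter, mem_univ, true_and]
      have := Wn_aut hσ v
      change _ ↔ Wn e C (Sum.map (th e k (Multiplicative.ofAdd t)).1 σ v) = V
      rw [this]
    · intro v hv
      simp only [mem_filter, mem_univ, true_and] at hv
      have hw : C.wires g (Equiv.sumCongr (th e k (Multiplicative.ofAdd t)).1 σ v) =
          C.wires g v := by
        have := (hσ.2 g).2 v
        rw [hσg] at this
        exact this
      rw [hw]
      by_cases hw0 : C.wires g v = 0
      · simp [hw0]
      have h6 : C.nval (inst e T b') (Equiv.sumCongr (th e k (Multiplicative.ofAdd t)).1 σ v) =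
          C.nval (inst e T b) v := by
        refine (nval_flip hσ b' v).trans (hnode v hw0 _ _ ?_).symm
        intro c hc
        rw [hv] at hc
        have h7 := ht2 c hc
        rw [pr_add_right, pr_add_right] at h7
        rw [pr_add_right]
        have : ∀ x y z : ZMod 2, x + y + z = 0 → x = y + z := by decide
        exact this _ _ _ h7
      rw [h6]

/-- The output does not depend on the right hand side. -/
theorem out_eq (hR : 1 ≤ R) (hG : ∀ v, GapFor T R (Wn e C v)) (b b' : Fin m → ZMod 2)
    (h : ∀ c, Ann T (2 * R) (Wn e C (Sum.inr (C.out ()))) c → pr c b = pr c b') :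
    C.val (inst e T b) (C.out ()) = C.val (inst e T b') (C.out ()) :=
  gok_gate hR hG (C.out ()) b b' h

/-- If the circuit is invariant, then all flips fix the output gate. -/
lemma Wn_out {D : Finset (Fin n)} (hC : FlipInvariant C D) (he : ∀ i, e i ∈ D) :
    Wn e C (Sum.inr (C.out ())) = ⊤ := by
  rw [eq_top_iff]
  intro w _
  rw [mem_Wn_inr]
  obtain ⟨τ, hτ⟩ := hC (ex e w) (fun i hi => ex_off e w i (by rintro j rfl; exact hi (he j)))
  exact ⟨τ, hτ, hτ.1 ()⟩

lemma inv_th {D : Finset (Fin n)} (hC : FlipInvariant C D) (he : ∀ i, e i ∈ D) :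
    C.Inv (th e k) := by
  intro x
  obtain ⟨τ, hτ⟩ := hC (ex e x.toAdd)
    (fun i hi => ex_off e _ i (by rintro j rfl; exact hi (he j)))
  exact ⟨τ, hτ⟩

open Classical in
/-- There are many gates with the same group. -/
lemma many_gates (hC : C.Inv (th e k)) (g₀ : Fin s) :
    (2 : ℝ) ^ q ≤ ((univ.filter fun w => w ∈ Wn e C (Sum.inr g₀)).card : ℝ) *
      ((univ.filter fun g => Wn e C (Sum.inr g) = Wn e C (Sum.inr g₀)).card : ℝ) := by
  have h1 : Nat.card (C.stab (th e k) g₀) =
      (univ.filter fun w => w ∈ Wn e C (Sum.inr g₀)).card := by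
    rw [Nat.card_eq_fintype_card, ← Fintype.card_coe]
    refine Fintype.card_congr ?_
    refine (Equiv.subtypeEquiv Multiplicative.toAdd fun x => ?_)
    rw [mem_filter, mem_Wn_inr]
    simp
  have h2 : (C.stab (th e k) g₀).index ≤
      (univ.filter fun g => Wn e C (Sum.inr g) = Wn e C (Sum.inr g₀)).card := by
    choose L hL using hC
    rw [Subgroup.index, Nat.card_eq_fintype_card, ← Fintype.card_coe]
    refine Fintype.card_le_of_injective (fun x => ⟨L x.out g₀, ?_⟩) ?_
    · rw [mem_filter]
      refine ⟨mem_univ _, ?_⟩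
      exact Wn_aut (u := x.out.toAdd) (hL x.out) (Sum.inr g₀)
    · intro x x' h
      rw [Subtype.mk.injEq] at h
      rw [← x.out_eq', ← x'.out_eq']
      refine QuotientGroup.eq.2 ?_
      refine ⟨(L x.out)⁻¹ * L x'.out, ?_, ?_⟩
      · rw [map_mul, map_inv]
        exact C.autGrp.mul_mem (C.autGrp.inv_mem (x := (th e k x.out, L x.out)) (hL x.out))
          (y := (th e k x'.out, L x'.out)) (hL x'.out)
      · rw [Perm.mul_apply, ← h]
        exact (L x.out).symm_apply_apply g₀
  have h3 := (C.stab (th e k) g₀).index_mul_card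
  have h4 : Nat.card (Multiplicative (Fin q → ZMod 2)) = 2 ^ q := by
    rw [Nat.card_eq_fintype_card, Fintype.card_multiplicative, Fintype.card_fun, ZMod.card,
      Fintype.card_fin]
  rw [h4, h1] at h3
  have h5 := Nat.mul_le_mul_right (univ.filter fun w => w ∈ Wn e C (Sum.inr g₀)).card h2
  rw [h3, mul_comm] at h5
  exact_mod_cast h5

open Classical in
/-- The sum of the indices over the different groups. -/
lemma sum_index_le (hC : C.Inv (th e k)) :
    ∑ W ∈ univ.image (fun g => Wn e C (Sum.inr g)),
      (2 : ℝ) ^ q / ((univ.filter fun w => w ∈ W).card : ℝ) ≤ s := by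
  have h1 : (s : ℝ) = ∑ W ∈ univ.image (fun g => Wn e C (Sum.inr g)),
      ((univ.filter fun g => Wn e C (Sum.inr g) = W).card : ℝ) := by
    have := card_eq_sum_card_image (fun g => Wn e C (Sum.inr g)) (univ : Finset (Fin s))
    rw [card_univ, Fintype.card_fin] at this
    exact_mod_cast this
  rw [h1]
  refine sum_le_sum fun W hW => ?_
  obtain ⟨g, -, rfl⟩ := mem_image.1 hW
  have h2 := many_gates hC g
  have h3 : 0 < (univ.filter fun w => w ∈ Wn e C (Sum.inr g)).card :=
    card_pos.2 ⟨0, mem_filter.2 ⟨mem_univ _, Submodule.zero_mem _⟩⟩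
  rw [div_le_iff₀ (by exact_mod_cast h3), mul_comm]
  exact h2

/-- The vectors which vanish on the entries of a tuple. -/
def WS (τ : Fin k → Option (Fin q)) : Submodule (ZMod 2) (Fin q → ZMod 2) where
  carrier := {w | ∀ j i, τ j = some i → w i = 0}
  zero_mem' := fun _ _ _ => rfl
  add_mem' := by
    intro w w' h h' j i hi
    rw [Pi.add_apply, h j i hi, h' j i hi, add_zero]
  smul_mem' := by
    intro a w h j i hi
    rw [Pi.smul_apply, h j i hi, smul_zero]

lemma exists_tuple (e : Fin q ↪ Fin n) (C : Net (Clause n k) Unit s) (c : Clause n k) :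
    ∃ τ : Fin k → Option (Fin q), Wn e C (Sum.inl c) = WS τ := by
  classical
  set Sc : Finset (Fin q) := univ.filter fun i => ∃ v, (e i, v) ∈ c.1 with hSc
  have hcard : Sc.card ≤ k := by
    refine le_trans ?_ c.2
    have : (Sc.map e) ⊆ c.1.image Prod.fst := by
      intro i hi
      obtain ⟨i', hi', rfl⟩ := mem_map.1 hi
      rw [hSc, mem_filter] at hi'
      obtain ⟨-, v, hv⟩ := hi'
      exact mem_image.2 ⟨_, hv, rfl⟩
    have h2 := card_le_card this
    rw [card_map] at h2
    exact h2.trans card_image_le
  refine ⟨fun j => if h : j.1 < Sc.card then some (Sc.equivFin.symm ⟨j.1, h⟩).1 else none, ?_⟩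
  ext w
  rw [mem_Wn_inl]
  change _ ↔ ∀ j i, _ → w i = 0
  constructor
  · intro h j i hj
    refine h i ?_
    dsimp only at hj
    split_ifs at hj with hlt
    rw [Option.some.injEq] at hj
    have := (Sc.equivFin.symm ⟨j.1, hlt⟩).2
    rw [hj, hSc, mem_filter] at this
    exact this.2
  · intro h i hi
    have hmem : i ∈ Sc := by rw [hSc, mem_filter]; exact ⟨mem_univ _, hi⟩
    set j := Sc.equivFin ⟨i, hmem⟩ with hj
    refine h ⟨j.1, by have := j.2; omega⟩ i ?_
    dsimp only
    rw [dif_pos j.2]
    simp [hj]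

open Classical in
lemma card_WS (τ : Fin k → Option (Fin q)) :
    (2 : ℝ) ^ q / ((univ.filter fun w => w ∈ WS τ).card : ℝ) ≤ 2 ^ k := by
  let f : (Fin q → ZMod 2) →ₗ[ZMod 2] (Fin k → ZMod 2) :=
    { toFun := fun w j => match τ j with
        | some i => w i
        | none => 0
      map_add' := by
        intro w w'
        funext j
        simp only [Pi.add_apply]
        cases τ j <;> simp
      map_smul' := by
        intro a w
        funext j
        simp only [Pi.smul_apply, RingHom.id_apply]
        cases τ j <;> simp }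
  have h1 := LinearMap.finrank_range_add_finrank_ker f
  have h2 : Module.finrank (ZMod 2) (LinearMap.range f) ≤ k := by
    refine (Submodule.finrank_le _).trans ?_
    simp
  have h3 : Module.finrank (ZMod 2) (Fin q → ZMod 2) = q := by simp
  rw [h3] at h1
  have h4 : Nat.card (LinearMap.ker f) = 2 ^ Module.finrank (ZMod 2) (LinearMap.ker f) := by
    rw [Nat.card_eq_fintype_card, Module.card_eq_pow_finrank (K := ZMod 2), ZMod.card]
  have h5 : Nat.card (LinearMap.ker f) = (univ.filter fun w => w ∈ WS τ).card := by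
    rw [Nat.card_eq_fintype_card, ← Fintype.card_coe]
    refine Fintype.card_congr (Equiv.subtypeEquivRight fun w => ?_)
    rw [mem_filter, LinearMap.mem_ker]
    constructor
    · intro hw
      refine ⟨mem_univ _, fun j i hj => ?_⟩
      have : f w j = 0 := by rw [hw]; rfl
      change (match τ j with | some i => w i | none => 0) = 0 at this
      rw [hj] at this
      exact this
    · rintro ⟨-, hw⟩
      funext j
      change (match τ j with | some i => w i | none => 0) = 0
      cases hj : τ j with
      | none => rfl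
      | some i => exact hw j i hj
  have h6 : 2 ^ q ≤ 2 ^ k * (univ.filter fun w => w ∈ WS τ).card := by
    rw [← h5, h4, ← pow_add]
    exact Nat.pow_le_pow_right (by norm_num) (by omega)
  have h7 : 0 < (univ.filter fun w => w ∈ WS τ).card :=
    card_pos.2 ⟨0, mem_filter.2 ⟨mem_univ _, Submodule.zero_mem _⟩⟩
  rw [div_le_iff₀ (by exact_mod_cast h7)]
  exact_mod_cast h6

end Pool.Agent.L5helper42.Seth
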