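import Pool.Agent.L5helper42.Seth.Upper

/-!
# Choice of the parameters
-/

set_option autoImplicit false
set_option linter.unusedSectionVars false
set_option linter.unusedVariables false

open Finset Filter

namespace Pool.Agent.L5helper42.Seth

/-- All numerical conditions. -/
structure Good (ε δ' a ρ η : ℝ) (Δ k q R : ℕ) : Prop where
  q1 : 1 ≤ q
  R1 : 1 ≤ R
  D1 : 1 ≤ Δ
  k1 : 3 ≤ k
  a0 : 0 ≤ a
  far : 2 * (q : ℝ) ≤ 2 * δ' ^ 2 * ((Δ * q : ℕ) : ℝ)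
  w1 : a * ((2 * R : ℕ) : ℝ) ≤ η * q
  w2 : ((Δ * q : ℕ) : ℝ) * Real.exp (-a) ≤ η * q
  w3 : (q : ℝ) * Real.exp (-(2 * ((k * R : ℕ) : ℝ) / q)) ≤ η * q
  poly : ((q : ℝ) + 1) ^ k * 2 ^ k ≤ (2 : ℝ) ^ ((1 - ε) * q)
  big : 12 ≤ ε * q
  dist : 2 * ((Δ * q) ^ 2 * k ^ k) ≤ q ^ k

lemma exists_params (ε δ' : ℝ) (hε : 0 < ε) (hε1 : ε < 1) (hδ : 0 < δ') :
    ∃ (a ρ η : ℝ) (Δ k q₀ : ℕ), 0 < η ∧ η ≤ ε / 24 ∧ η ≤ 1 / 24 ∧
      ∀ q, q₀ ≤ q → Good ε δ' a ρ η Δ k q ⌊ρ * q⌋₊ := by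
  set η : ℝ := min ε 1 / 24 with hη
  have hη0 : 0 < η := by rw [hη]; have := lt_min hε one_pos; positivity
  have hη1 : η ≤ ε / 24 := by
    rw [hη]; have := min_le_left ε 1; linarith
  have hη2 : η ≤ 1 / 24 := by
    rw [hη]; have := min_le_right ε 1; linarith
  set Δ : ℕ := ⌈1 / δ' ^ 2⌉₊ with hΔ
  have hΔ1 : 1 ≤ Δ := Nat.ceil_pos.2 (by positivity)
  have hΔ1' : (1 : ℝ) ≤ Δ := by exact_mod_cast hΔ1
  have hΔ2 : 1 ≤ δ' ^ 2 * Δ := by
    have h1 : 1 / δ' ^ 2 ≤ Δ := Nat.le_ceil _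
    rw [div_le_iff₀ (by positivity)] at h1
    linarith
  set a : ℝ := Real.log (Δ / η) with ha
  have hΔη : 1 < Δ / η := by
    rw [lt_div_iff₀ hη0]; linarith
  have ha0 : 0 < a := Real.log_pos hΔη
  have hea : Real.exp (-a) = η / Δ := by
    rw [Real.exp_neg, ha, Real.exp_log (by positivity), inv_div]
  set ρ : ℝ := η / (2 * a) with hρ
  have hρ0 : 0 < ρ := by positivity
  have haρ : 2 * a * ρ = η := by rw [hρ]; field_simp
  set L : ℝ := Real.log (1 / η) with hL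
  have hL0 : 0 ≤ L := Real.log_nonneg (by rw [le_div_iff₀ hη0]; linarith)
  have heL : Real.exp (-L) = η := by
    rw [hL, Real.exp_neg, Real.exp_log (by positivity), one_div, inv_inv]
  set k : ℕ := max 3 ⌈L / ρ⌉₊ with hk
  have hk3 : 3 ≤ k := le_max_left _ _
  have hkρ : L ≤ k * ρ := by
    have h1 : L / ρ ≤ ⌈L / ρ⌉₊ := Nat.le_ceil _
    have h2 : (⌈L / ρ⌉₊ : ℝ) ≤ k := by exact_mod_cast le_max_right _ _
    have h3 := h1.trans h2
    rwa [div_le_iff₀ hρ0] at h3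
  -- the polynomial factor
  have hr : (1 : ℝ) < (2 : ℝ) ^ (1 - ε) := by
    apply Real.one_lt_rpow (by norm_num); linarith
  have hpoly : ∀ᶠ q : ℕ in atTop, ((q : ℝ) + 1) ^ k * 2 ^ k ≤ (2 : ℝ) ^ ((1 - ε) * q) := by
    have h1 := isLittleO_pow_const_const_pow_of_one_lt (R := ℝ) k hr
    set r : ℝ := (2 : ℝ) ^ (1 - ε) with hrdef
    have hr0 : 0 < r := by linarith
    have h2 := h1.def (c := 1 / (2 ^ k * r)) (by positivity)
    have h3 := (tendsto_add_atTop_nat 1).eventually h2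
    filter_upwards [h3] with q hq
    simp only [Real.norm_eq_abs] at hq
    rw [abs_of_nonneg (by positivity), abs_of_nonneg (by positivity)] at hq
    push_cast at hq
    have h4 : (2 : ℝ) ^ ((1 - ε) * q) = r ^ q := by
      rw [Real.rpow_mul (by norm_num), Real.rpow_natCast]
    rw [h4]
    calc ((q : ℝ) + 1) ^ k * 2 ^ k ≤ (1 / (2 ^ k * r) * r ^ (q + 1)) * 2 ^ k := by gcongr
      _ = r ^ q := by rw [pow_succ]; field_simp
  obtain ⟨q₁, hq₁⟩ := eventually_atTop.1 hpoly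
  refine ⟨a, ρ, η, Δ, k, max q₁ (max ⌈2 / ρ⌉₊ (max ⌈12 / ε⌉₊ (2 * Δ ^ 2 * k ^ k + 1))), hη0, hη1,
    hη2, fun q hq => ?_⟩
  have h1 : q₁ ≤ q := le_trans (le_max_left _ _) hq
  have h2 : ⌈2 / ρ⌉₊ ≤ q := le_trans (le_trans (le_max_left _ _) (le_max_right _ _)) hq
  have h3 : ⌈12 / ε⌉₊ ≤ q := le_trans (le_trans (le_trans (le_max_left _ _) (le_max_right _ _))
    (le_max_right _ _)) hq
  have h4 : 2 * Δ ^ 2 * k ^ k + 1 ≤ q := le_trans (le_trans (le_trans (le_max_right _ _)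
    (le_max_right _ _)) (le_max_right _ _)) hq
  have hq1 : 1 ≤ q := by omega
  have hq0 : (0 : ℝ) < q := by exact_mod_cast hq1
  have h2' : 2 ≤ ρ * q := by
    have : 2 / ρ ≤ q := (Nat.le_ceil _).trans (by exact_mod_cast h2)
    rw [div_le_iff₀ hρ0] at this
    linarith
  have h3' : 12 ≤ ε * q := by
    have : 12 / ε ≤ q := (Nat.le_ceil _).trans (by exact_mod_cast h3)
    rw [div_le_iff₀ hε] at this
    linarith
  set R : ℕ := ⌊ρ * q⌋₊ with hR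
  have hR1 : (R : ℝ) ≤ ρ * q := Nat.floor_le (by positivity)
  have hR2 : ρ * q / 2 ≤ R := by
    have := Nat.lt_floor_add_one (ρ * q)
    rw [← hR] at this
    linarith
  refine ⟨hq1, ?_, hΔ1, hk3, ha0.le, ?_, ?_, ?_, ?_, hq₁ q h1, h3', ?_⟩
  · have : (1 : ℝ) ≤ R := by linarith
    exact_mod_cast this
  · push_cast
    nlinarith
  · push_cast
    nlinarith
  · push_cast
    rw [hea]
    apply le_of_eq
    field_simp
  · rw [mul_comm η]
    refine mul_le_mul_of_nonneg_left ?_ hq0.le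
    rw [← heL]
    apply Real.exp_le_exp.2
    apply neg_le_neg
    rw [le_div_iff₀ hq0]
    push_cast
    have : (k : ℝ) * (ρ * q / 2) ≤ k * R := mul_le_mul_of_nonneg_left hR2 (by positivity)
    nlinarith
  · calc 2 * ((Δ * q) ^ 2 * k ^ k) = (2 * Δ ^ 2 * k ^ k) * q ^ 2 := by ring
      _ ≤ q * q ^ 2 := Nat.mul_le_mul_right _ (by omega)
      _ = q ^ 3 := by ring
      _ ≤ q ^ k := Nat.pow_le_pow_right hq1 hk3

end Pool.Agent.L5helper42.Seth
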