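import Pool.Agent.L5helper42.Seth.Game

/-!
# Random systems of equations are good for a given circuit
-/

set_option autoImplicit false
set_option linter.unusedSectionVars false
set_option linter.unusedVariables false

open Equiv Finset

namespace Pool.Agent.L5helper42.Seth

open Pool.Agent.L5helper42.Owf (Net)

variable {n q k s : ℕ} (e : Fin q ↪ Fin n) (C : Net (Clause n k) Unit s)

open Classical in
/-- The left hand sides which are bad for the circuit. -/
noncomputable def BadT (m R : ℕ) : Finset (Fin m → Fin k → Fin q) :=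
  univ.filter fun T => ∃ v, ¬ GapFor T R (Wn e C v)

open Classical in
/-- All groups. -/
noncomputable def allW : Finset (Submodule (ZMod 2) (Fin q → ZMod 2)) :=
  univ.image (fun g => Wn e C (Sum.inr g)) ∪ univ.image (WS (k := k) (q := q))

variable {e C}

lemma Wn_mem (v : Clause n k ⊕ Fin s) : Wn e C v ∈ allW e C := by
  classical
  cases v with
  | inl c =>
    obtain ⟨τ, hτ⟩ := exists_tuple e C c
    rw [hτ]
    exact mem_union_right _ (mem_image_of_mem _ (mem_univ τ))
  | inr g => exact mem_union_left _ (mem_image_of_mem _ (mem_univ g))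

open Classical in
lemma sum_allW (hC : C.Inv (th e k)) :
    ∑ W ∈ allW e C, (2 : ℝ) ^ q / ((univ.filter fun w => w ∈ W).card : ℝ) ≤
      s + ((q : ℝ) + 1) ^ k * 2 ^ k := by
  have h0 : ∀ W : Submodule (ZMod 2) (Fin q → ZMod 2),
      (0 : ℝ) ≤ (2 : ℝ) ^ q / ((univ.filter fun w => w ∈ W).card : ℝ) := fun W => by positivity
  have h1 : ∑ W ∈ univ.image (WS (k := k) (q := q)),
      (2 : ℝ) ^ q / ((univ.filter fun w => w ∈ W).card : ℝ) ≤ ((q : ℝ) + 1) ^ k * 2 ^ k := by
    have h2 : ∀ W ∈ univ.image (WS (k := k) (q := q)),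
        (2 : ℝ) ^ q / ((univ.filter fun w => w ∈ W).card : ℝ) ≤ 2 ^ k := by
      intro W hW
      obtain ⟨τ, -, rfl⟩ := mem_image.1 hW
      exact card_WS τ
    refine (sum_le_card_nsmul _ _ _ h2).trans ?_
    rw [nsmul_eq_mul]
    refine mul_le_mul_of_nonneg_right ?_ (by positivity)
    have h3 : (univ.image (WS (k := k) (q := q))).card ≤ (q + 1) ^ k := by
      refine card_image_le.trans ?_
      rw [card_univ, Fintype.card_fun, Fintype.card_option, Fintype.card_fin, Fintype.card_fin]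
    exact_mod_cast h3
  have h2 := sum_index_le hC
  have h3 : ∑ W ∈ allW e C, (2 : ℝ) ^ q / ((univ.filter fun w => w ∈ W).card : ℝ) ≤
      ∑ W ∈ univ.image (fun g => Wn e C (Sum.inr g)),
        (2 : ℝ) ^ q / ((univ.filter fun w => w ∈ W).card : ℝ) +
      ∑ W ∈ univ.image (WS (k := k) (q := q)),
        (2 : ℝ) ^ q / ((univ.filter fun w => w ∈ W).card : ℝ) := by
    unfold allW
    rw [← sum_union_inter]
    have := sum_nonneg (s := (univ.image (fun g => Wn e C (Sum.inr g))) ∩
      (univ.image (WS (k := k) (q := q)))) fun W _ => h0 W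
    linarith
  linarith

theorem card_badT_le {m R : ℕ} (hq : 1 ≤ q) (hC : C.Inv (th e k)) {a : ℝ} (ha : 0 ≤ a) :
    ((BadT e C m R).card : ℝ) ≤ (s + ((q : ℝ) + 1) ^ k * 2 ^ k) / 2 ^ q *
      (Real.exp (a * (2 * R : ℕ)) * (1 + Real.exp (-a)) ^ m) *
      (2 * (1 + Real.exp (-(2 * (k * R : ℕ) / q))) ^ q) *
      (Fintype.card (Fin m → Fin k → Fin q) : ℝ) := by
  classical
  have hq0 : (0 : ℝ) < q := by exact_mod_cast hq
  set N : ℝ := (Fintype.card (Fin m → Fin k → Fin q) : ℝ) with hN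
  set B0 : ℝ := 2 * (1 + Real.exp (-(2 * (k * R : ℕ) / q))) ^ q with hB0
  set CC : Finset (Fin m → ZMod 2) := univ.filter fun c => R < wt c ∧ wt c ≤ 2 * R with hCC
  have hcov : BadT e C m R ⊆ (allW e C).biUnion fun W => CC.biUnion fun c =>
      univ.filter fun T : Fin m → Fin k → Fin q => ∀ w ∈ W, pr c (mulT T w) = 0 := by
    intro T hT
    rw [BadT, mem_filter] at hT
    obtain ⟨-, v, hv⟩ := hT
    unfold GapFor at hv
    push Not at hv
    obtain ⟨c, hc, hc2⟩ := hv
    refine mem_biUnion.2 ⟨_, Wn_mem v, mem_biUnion.2 ⟨c, ?_, ?_⟩⟩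
    · rw [hCC, mem_filter]
      exact ⟨mem_univ _, hc2, hc.1⟩
    · rw [mem_filter]
      exact ⟨mem_univ _, hc.2⟩
  have hone : ∀ W ∈ allW e C, ∀ c ∈ CC,
      ((univ.filter fun T : Fin m → Fin k → Fin q => ∀ w ∈ W, pr c (mulT T w) = 0).card : ℝ) ≤
      (2 : ℝ) ^ q / ((univ.filter fun w => w ∈ W).card : ℝ) * (1 / 2 ^ q * B0 * N) := by
    intro W _ c hc
    rw [hCC, mem_filter] at hc
    have h1 := card_ann_le (k := k) hq W c
    have h2 : (2 * (1 + Real.exp (-(2 * (k * wt c : ℕ) / q))) ^ q) ≤ B0 := by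
      rw [hB0]
      refine mul_le_mul_of_nonneg_left ?_ (by norm_num)
      refine pow_le_pow_left₀ (by positivity) ?_ q
      have h4 : -(2 * (k * wt c : ℕ) / (q : ℝ)) ≤ -(2 * (k * R : ℕ) / (q : ℝ)) := by
        apply neg_le_neg
        apply div_le_div_of_nonneg_right _ hq0.le
        have : (k * R : ℕ) ≤ k * wt c := Nat.mul_le_mul_left _ hc.2.1.le
        have h5 : ((k * R : ℕ) : ℝ) ≤ ((k * wt c : ℕ) : ℝ) := by exact_mod_cast this
        linarith
      have := Real.exp_le_exp.2 h4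
      linarith
    have h3 : (0 : ℝ) < ((univ.filter fun w => w ∈ W).card : ℝ) := by
      have : 0 < (univ.filter fun w => w ∈ W).card :=
        card_pos.2 ⟨0, mem_filter.2 ⟨mem_univ _, Submodule.zero_mem _⟩⟩
      exact_mod_cast this
    have h4 : (2 : ℝ) ^ q / ((univ.filter fun w => w ∈ W).card : ℝ) * (1 / 2 ^ q * B0 * N) =
        (B0 * N) / ((univ.filter fun w => w ∈ W).card : ℝ) := by
      field_simp
    rw [h4, le_div_iff₀ h3, mul_comm]
    refine h1.trans ?_
    exact mul_le_mul_of_nonneg_right h2 (by positivity)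
  have hK0 : (0 : ℝ) ≤ 1 / 2 ^ q * B0 * N := by rw [hB0, hN]; positivity
  have hCCc : (CC.card : ℝ) ≤ Real.exp (a * (2 * R : ℕ)) * (1 + Real.exp (-a)) ^ m := by
    refine le_trans ?_ (card_wt_le (m := m) a ha (2 * R))
    have : CC ⊆ univ.filter fun c : Fin m → ZMod 2 => wt c ≤ 2 * R := by
      intro c hc
      rw [hCC, mem_filter] at hc
      exact mem_filter.2 ⟨mem_univ _, hc.2.2⟩
    exact_mod_cast card_le_card this
  calc ((BadT e C m R).card : ℝ)
      ≤ ∑ W ∈ allW e C, ∑ c ∈ CC, ((univ.filter fun T : Fin m → Fin k → Fin q =>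
          ∀ w ∈ W, pr c (mulT T w) = 0).card : ℝ) := by
        have h1 := (card_le_card hcov).trans (card_biUnion_le.trans
          (sum_le_sum fun W _ => card_biUnion_le))
        exact_mod_cast h1
    _ ≤ ∑ W ∈ allW e C, ∑ c ∈ CC,
          ((2 : ℝ) ^ q / ((univ.filter fun w => w ∈ W).card : ℝ) * (1 / 2 ^ q * B0 * N)) :=
        sum_le_sum fun W hW => sum_le_sum fun c hc => hone W hW c hc
    _ = (∑ W ∈ allW e C, (2 : ℝ) ^ q / ((univ.filter fun w => w ∈ W).card : ℝ)) *
          CC.card * (1 / 2 ^ q * B0 * N) := by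
        simp only [sum_const, nsmul_eq_mul]
        rw [sum_mul, sum_mul]
        exact sum_congr rfl fun W _ => by ring
    _ ≤ (s + ((q : ℝ) + 1) ^ k * 2 ^ k) *
          (Real.exp (a * (2 * R : ℕ)) * (1 + Real.exp (-a)) ^ m) * (1 / 2 ^ q * B0 * N) := by
        refine mul_le_mul_of_nonneg_right ?_ hK0
        exact mul_le_mul (sum_allW hC) hCCc (by positivity) (by positivity)
    _ = _ := by ring

end Pool.Agent.L5helper42.Seth
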