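import Pool.Agent.L5helper42.Seth.Count

/-!
# Exhaustive search is invariant under flips
-/

set_option autoImplicit false
set_option linter.unusedSectionVars false
set_option linter.unusedVariables false

open Equiv Finset

namespace Pool.Agent.L5helper42.Seth

open Pool.Agent.L5helper42.Owf (Net)

variable {n k : ℕ}

lemma card_asg (n : ℕ) : Fintype.card (Fin n → ZMod 2) = 2 ^ n := by
  rw [Fintype.card_fun, ZMod.card, Fintype.card_fin]

/-- Numbering of the assignments. -/
noncomputable def num (n : ℕ) : (Fin n → ZMod 2) ≃ Fin (2 ^ n) :=
  Fintype.equivFinOfCardEq (card_asg n)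

open Classical in
/-- Exhaustive search. The gate with the number of an assignment has the value `1` if no clause of
the formula is violated by the assignment. -/
noncomputable def brute (n k : ℕ) : Net (Clause n k) Unit (2 ^ n + 1) where
  wires g := Fin.lastCases (motive := fun _ => Clause n k ⊕ Fin (2 ^ n + 1) → ℕ)
    (Sum.elim (fun _ => 0) (fun h => if h = Fin.last _ then 0 else 1))
    (fun a => Sum.elim (fun c => if ∃ l ∈ c.1, (num n).symm a l.1 = l.2 then 0 else 1)
      (fun _ => 0)) g
  acyclic := by
    intro g h
    refine Fin.lastCases ?_ (fun a => ?_) g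
    · intro hne
      simp only [Fin.lastCases_last, Sum.elim_inr, ne_eq, ite_eq_left_iff, one_ne_zero, imp_false,
        not_not] at hne
      exact Fin.lt_last_iff_ne_last.2 hne
    · intro hne
      simp at hne
  fn g := Fin.lastCases (motive := fun _ => ℕ → Bool) (fun c => decide (c ≠ 0))
    (fun _ c => decide (c = 0)) g
  out _ := Fin.last _

lemma brute_gate (φ : Clause n k → Bool) (a : Fin (2 ^ n)) :
    (brute n k).val φ a.castSucc = true ↔
      ∀ c, φ c = true → ∃ l ∈ c.1, (num n).symm a l.1 = l.2 := by
  classical
  rw [Net.val_eq]
  have h1 : (brute n k).fn a.castSucc = fun c => decide (c = 0) := by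
    simp [brute]
  rw [h1]
  simp only [decide_eq_true_eq]
  unfold Net.count
  rw [Finset.sum_eq_zero_iff]
  constructor
  · intro h c hc
    have h2 := h (Sum.inl c) (mem_univ _)
    simp only [Net.nval, Sum.elim_inl, hc, if_true] at h2
    by_contra hcon
    have h3 : (brute n k).wires a.castSucc (Sum.inl c) = 1 := by
      simp only [brute, Fin.lastCases_castSucc, Sum.elim_inl]
      rw [if_neg hcon]
    omega
  · intro h u _
    cases u with
    | inl c =>
      by_cases hc : φ c = true
      · have h3 : (brute n k).wires a.castSucc (Sum.inl c) = 0 := by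
          simp only [brute, Fin.lastCases_castSucc, Sum.elim_inl]
          rw [if_pos (h c hc)]
        rw [h3]
        split_ifs <;> rfl
      · exact if_neg hc
    | inr g =>
      have h3 : (brute n k).wires a.castSucc (Sum.inr g) = 0 := by
        simp [brute]
      rw [h3]
      split_ifs <;> rfl

lemma brute_sat (φ : Clause n k → Bool) :
    (brute n k).val φ ((brute n k).out ()) = true ↔ Satisfiable φ := by
  classical
  have h0 : (brute n k).out () = Fin.last _ := rfl
  rw [h0, Net.val_eq]
  have h1 : (brute n k).fn (Fin.last _) = fun c => decide (c ≠ 0) := by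
    simp [brute]
  rw [h1]
  simp only [decide_eq_true_eq]
  unfold Net.count
  rw [Ne, Finset.sum_eq_zero_iff]
  push Not
  constructor
  · rintro ⟨u, -, hu⟩
    cases u with
    | inl c =>
      exfalso
      apply hu
      have h3 : (brute n k).wires (Fin.last _) (Sum.inl c) = 0 := by simp [brute]
      rw [h3]
      split_ifs <;> rfl
    | inr g =>
      revert hu
      refine Fin.lastCases ?_ (fun a => ?_) g
      · intro hu
        exfalso
        apply hu
        have h3 : (brute n k).wires (Fin.last _) (Sum.inr (Fin.last _)) = 0 := by simp [brute]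
        rw [h3]
        split_ifs <;> rfl
      · intro hu
        have h4 : (brute n k).val φ a.castSucc = true := by
          by_contra hcon
          exact hu (if_neg hcon)
        rw [brute_gate] at h4
        exact ⟨_, h4⟩
  · rintro ⟨x, hx⟩
    refine ⟨Sum.inr ((num n) x).castSucc, mem_univ _, ?_⟩
    have h4 : (brute n k).val φ ((num n) x).castSucc = true := by
      rw [brute_gate]
      intro c hc
      simpa using hx c hc
    simp only [Net.nval, Sum.elim_inr, h4, if_true]
    have h3 : (brute n k).wires (Fin.last _) (Sum.inr ((num n) x).castSucc) = 1 := by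
      simp [brute, Fin.castSucc_ne_last]
    rw [h3]
    norm_num

/-- The permutation of the assignments. -/
noncomputable def shiftNum (u : Fin n → ZMod 2) : Perm (Fin (2 ^ n)) :=
  (num n).symm.trans ((Equiv.addRight u).trans (num n))

lemma shiftNum_symm (u : Fin n → ZMod 2) (a : Fin (2 ^ n)) :
    (num n).symm (shiftNum u a) = (num n).symm a + u := by
  simp [shiftNum]

/-- The permutation of the gates. -/
noncomputable def gatePerm (u : Fin n → ZMod 2) : Perm (Fin (2 ^ n + 1)) :=
  finSuccEquivLast.trans ((Equiv.optionCongr (shiftNum u)).trans finSuccEquivLast.symm)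

lemma gatePerm_last (u : Fin n → ZMod 2) : gatePerm u (Fin.last _) = Fin.last _ := by
  simp [gatePerm]

lemma gatePerm_cast (u : Fin n → ZMod 2) (a : Fin (2 ^ n)) :
    gatePerm u a.castSucc = (shiftNum u a).castSucc := by
  simp [gatePerm]

theorem brute_inv (D : Finset (Fin n)) : FlipInvariant (brute n k) D := by
  classical
  intro u _
  refine ⟨gatePerm u, fun o => gatePerm_last u, fun g => ?_⟩
  refine Fin.lastCases ?_ (fun a => ?_) g
  · rw [gatePerm_last]
    refine ⟨rfl, fun v => ?_⟩
    cases v with
    | inl c => simp [brute]
    | inr h =>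
      simp only [brute, Fin.lastCases_last, Sum.map_inr, Sum.elim_inr]
      have : gatePerm u h = Fin.last _ ↔ h = Fin.last _ := by
        rw [← (gatePerm u).injective.eq_iff (a := h), gatePerm_last]
      simp only [this]
  · rw [gatePerm_cast]
    refine ⟨by simp [brute], fun v => ?_⟩
    cases v with
    | inl c =>
      simp only [brute, Fin.lastCases_castSucc, Sum.map_inl, Sum.elim_inl]
      have : (∃ l ∈ (flip k u c).1, (num n).symm (shiftNum u a) l.1 = l.2) ↔
          ∃ l ∈ c.1, (num n).symm a l.1 = l.2 := by
        change (∃ l ∈ (flipClause u c).1, _) ↔ _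
        simp only [mem_flipClause, shiftNum_symm, Pi.add_apply]
        constructor
        · rintro ⟨l, h1, h2⟩
          refine ⟨_, h1, ?_⟩
          simp only
          have key : ∀ x y z : ZMod 2, x + y = z → x = z + y := by decide
          exact key _ _ _ h2
        · rintro ⟨l, h1, h2⟩
          refine ⟨(l.1, l.2 + u l.1), ?_, ?_⟩
          · have key : ∀ z w : ZMod 2, z + w + w = z := by decide
            simp only [key]
            exact h1
          · simp only
            rw [h2]
      simp only [this]
    | inr h => simp [brute]

end Pool.Agent.L5helper42.Seth
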